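import Pool.Agent.H887.BK.F8

/-!
# Ordinary primes for the isotypic summands of the motives of almost all hypersurfaces

Let `K` be a number field. We consider the motives `R = e M` where `M` is the primitive part of the motive
`h ^ (n - 2) (X)` of a hypersurface `X : f = 0` of degree `d` in a weighted projective space
`P(w_1, …, w_n)` with weights which divide `d` (such as a hypersurface of projective space, `w = 1`), and `e` is an
idempotent of the group algebra of a finite group `Γ` of diagonal automorphisms of `X`: we write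
`Γ ⊂ (ℤ / d) ^ n`, and `b ∈ Γ` acts by `β_b : x_i ↦ ζ ^ (b_i) x_i`. Over a field with the `d`-th roots of unity,
`M = ⊕ M_g` is the sum of the isotypic parts for the characters `b ↦ b g = ∑ b_i g_i` of `Γ` (`(β_b ^ (-1)) ^ *` is
multiplication by `ζ ^ (b g)` on `M_g`), and every `e M` is,
after extension of the field and of the coefficients, a sum of some of the `M_g`. As in the problem, the Newton
polygon of the Frobenius on `M_g` depends on the embedding of the field of coefficients `ℚ(μ_d)` into the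
`p`-adic numbers, that is, on the choice of a primitive `d`-th root of unity `ζ` in `ℤ_p`. It is compared
with the Hodge polygon of `M_g`, for ALL `Γ`, `g` and `ζ`.

Let `v` be a place of good reduction with residue field of `p` elements, `d ∣ p - 1`, and
`det (1 - T Frob) = ∑ c_m T ^ m ∈ ℚ_p[T]` the characteristic polynomial of the Frobenius on `M_g`. Let
`pts f ζ b r` be the number of the solutions of `x_i ^ q = ζ ^ (b_i) x_i`, `f(x) = 0`, `q = p ^ r`. Then the
polynomial is `exp (- ∑ s_r T ^ r / r)` with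

  `s_r = |Γ| ^ (-1) ∑_(b ∈ Γ) ζ ^ (- b g) (-1) ^ n (pts f ζ b r - q ^ (n - 1)) / (q - 1)`

(Lefschetz trace formula for `β_b ^ (-1) ∘ Frob ^ r`). The Hodge number `h ^ (i, n - 2 - i)` of `M_g` is the
number of the monomials `x ^ u`, `0 ≤ u_j ≤ d / w_j - 2`, of weight `∑ w_j (u_j + 1) = (i + 1) d` with
`∑ b_j (u_j + 1) = ∑ b_j g_j` for all `b ∈ Γ` (Griffiths, Dolgachev, Steenbrink: the forms
`x ^ u Ω / f ^ (i + 1)` are a basis of the part of type `(n - 2 - i, i)` of the complex conjugate `M_(-g)` of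
`M_g`).

**Families.** `Z` is a set of monomials of weighted degree `d` which contains the pure powers
`x_i ^ (d / w_i)`, the parameters are `t = (t_(u, a))`, `u ∈ Z`, `a < h`, and

  `f_t = ∑_(u ∈ Z) (∑_a ω_a t_(u, a)) x ^ u`

for fixed `ω_a ∈ 𝓞 K` that are not all zero (such as an integral basis, or `ω = 1`). The groups `Γ` are all
subgroups of the group of the symmetries of all `x ^ u`, `u ∈ Z`. For instance, `Z` may consist of
`y ^ m` and of all monomials of degree `d` in `x_1, …, x_n` (cyclic coverings `y ^ m + f(x) = 0` of projective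
spaces, with the eigenspaces of the covering group), of `y ^ m, z ^ k` and of all monomials in the `x_i`, or
of the `x_i ^ n` and `x_1 ⋯ x_n` (Dwork family). Let `N = h |Z|`.

**Theorem.**

1. For `ε > 0` and all but finitely many places `v` of prime norm `p = 1` modulo `d`, at most `ε p ^ N`
   of the `p ^ N` residue classes `t` are such that `f_t = 0` does not have good reduction at `v` or one of the
   summands `M_g` (for some `Γ`, `g`, `ζ`) is not ordinary.
2. For `η > 0` and `0 < θ < 1` there is `A` such that for all `t ∈ [1, X] ^ N` but at most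
   `A (X ^ N / Q₀ ^ (1 - θ) + X ^ (N - 1) Q₁ ^ (1 + θ))`, and for ALL `Q` with `Q₀ ≤ Q ≤ Q₁`, the places
   of good reduction at which all summands are ordinary are at least the proportion
   `1 / [K(μ_d) : K] - η` of ALL places with `N v ≤ Q`.

So for 100 percent of the members all summands are ordinary for every embedding at a positive proportion of the
places, at all scales from `Q₀` to `Q₁`. The case of the trivial group (the whole primitive part) of
projective hypersurfaces is the hand-in `MP_17d720_ag.BlochKato`.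

## Proof

The substitution `x_i = y_i ^ (w_i)` gives a covering of `X` by the smooth hypersurface `Y : f(y ^ w) = 0`
of degree `d` of the projective space, and `M_g` is cut out of the cohomology of `Y` by a character of the group
of all `γ` with `(γ_i ^ (w_i)) ∈ Γ`. New are: the twisted trace formula for the numbers of
solutions of `y_i ^ q = γ_i y_i`, `f(y ^ w) = 0` (`H253/BK/PTw.lean`, by helper253); the compatibility of
the matrix of Frobenius, of Dwork's kernels, of the coordinates and of the reduced matrices with the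
symmetries (`H337/BK/Gr.lean`, by helper337), which implies that the higher Hasse invariants of the
summands divide those of `Y`; Newton polygons over `ℚ_p` (`H233/BK/NewP.lean`, by helper233); the
count of the twisted points of weighted hypersurfaces (`H795/BKW/WCnt.lean`, `H894/BK/WCntT.lean`, by
helper795 and helper894); the orthogonality relations (`H887/BK/F1.lean`, `F3.lean`, `F6.lean`). The
exceptional set is that of `Y`, which is small by Stepanov's method (`H887/BK/Hyp.lean`).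
-/

set_option autoImplicit false

open Finset MvPolynomial NumberField IsDedekindDomain

namespace Pool.Agent.Results.MP_0dad22_ag.IsotypicSummands

/-- The number of the solutions of `x_i ^ (p ^ r) = ζ ^ (b_i) x_i`, `f(x) = 0` over the algebraic closure of
`k` (`ζ` is reduced modulo `p`). -/
noncomputable def pts {k : Type} [Field k] {n d p : ℕ} [Fact p.Prime] (f : MvPolynomial (Fin n) k)
    (ζ : ℤ_[p]) (b : Fin n → ZMod d) (r : ℕ) : ℕ :=
  Nat.card {ξ : Fin n → AlgebraicClosure k //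
    (∀ i, ξ i ^ p ^ r = (((PadicInt.toZMod ζ).val : ℕ) : AlgebraicClosure k) ^ (b i).val * ξ i) ∧
      aeval ξ f = 0}

open Classical in
/-- The trace of the `r`-th power of the Frobenius on the part `M_g` of the primitive cohomology of the
hypersurface `f = 0` on which `(β_b ^ (-1)) ^ *` is multiplication by `ζ ^ (b g)`, `b ∈ Γ`. -/
noncomputable def trFrob {k : Type} [Field k] {n d p : ℕ} [NeZero d] [Fact p.Prime]
    (f : MvPolynomial (Fin n) k) (Γ : AddSubgroup (Fin n → ZMod d)) (g : Fin n → ZMod d) (ζ : ℤ_[p])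
    (r : ℕ) : ℚ_[p] :=
  ((univ.filter fun b : Fin n → ZMod d => b ∈ Γ).card : ℚ_[p])⁻¹ *
    ∑ b ∈ univ.filter (fun b : Fin n → ZMod d => b ∈ Γ), (ζ : ℚ_[p]) ^ (-∑ i, b i * g i).val *
      ((-1) ^ n * ((pts f ζ b r : ℚ_[p]) - (p : ℚ_[p]) ^ (r * (n - 1))) / ((p : ℚ_[p]) ^ r - 1))

/-- `∑ c_m T ^ m = exp (- ∑ trFrob r T ^ r / r)` is the characteristic polynomial `det (1 - T Frob)` of the
Frobenius on the summand (this determines `c`). -/
def IsCharPoly {k : Type} [Field k] {n d p : ℕ} [NeZero d] [Fact p.Prime]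
    (f : MvPolynomial (Fin n) k) (Γ : AddSubgroup (Fin n → ZMod d)) (g : Fin n → ZMod d) (ζ : ℤ_[p])
    (c : ℕ → ℚ_[p]) : Prop :=
  c 0 = 1 ∧ ∀ m : ℕ, ((m : ℚ_[p]) + 1) * c (m + 1) =
    -∑ i ∈ range (m + 1), trFrob f Γ g ζ (i + 1) * c (m - i)

/-- The Hodge number `h ^ (i, n - 2 - i)` of the summand `M_g`, for the hypersurfaces of degree `d` in the
weighted projective space `P(w_1, …, w_n)`. -/
noncomputable def hodge {n d : ℕ} (w : Fin n → ℕ) (Γ : AddSubgroup (Fin n → ZMod d))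
    (g : Fin n → ZMod d) (i : ℕ) : ℕ :=
  Nat.card {u : (j : Fin n) → Fin (d / w j - 1) // ∑ j, w j * ((u j : ℕ) + 1) = (i + 1) * d ∧
    ∀ b ∈ Γ, ∑ j, b j * ((((u j : ℕ) + 1 : ℕ)) : ZMod d) = ∑ j, b j * g j}

/-- The Newton polygon of the characteristic polynomial of the Frobenius on the summand is the Hodge
polygon: the points `(m, v_p(c_m))` are not below the lines of slope `j` which support the Hodge polygon,
and the vertices `(∑_(i < j) h_i, ∑_(i < j) i h_i)` of the Hodge polygon are among them. -/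
def Ordinary {k : Type} [Field k] {n d p : ℕ} [NeZero d] [Fact p.Prime] (w : Fin n → ℕ)
    (f : MvPolynomial (Fin n) k) (Γ : AddSubgroup (Fin n → ZMod d)) (g : Fin n → ZMod d)
    (ζ : ℤ_[p]) : Prop :=
  ∃ c : ℕ → ℚ_[p], IsCharPoly f Γ g ζ c ∧
    (∀ m, ∑ i ∈ range n, hodge w Γ g i < m → c m = 0) ∧
    (∀ m j : ℕ, c m ≠ 0 → (j : ℤ) * m - ∑ i ∈ range j, ((j : ℤ) - i) * hodge w Γ g i ≤
      (c m).valuation) ∧
    ∀ j : ℕ, c (∑ i ∈ range j, hodge w Γ g i) ≠ 0 ∧
      (c (∑ i ∈ range j, hodge w Γ g i)).valuation = ∑ i ∈ range j, (i : ℤ) * hodge w Γ g i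

/-- The partial derivatives of `f` have no common zero except the origin. -/
def QuasiSmooth {k : Type} [Field k] {n : ℕ} (f : MvPolynomial (Fin n) k) : Prop :=
  ∀ ξ : Fin n → AlgebraicClosure k, (∀ i, aeval ξ (pderiv i f) = 0) → ξ = 0

/-- The indices of the parameters: a monomial of `Z` and an index `a < h`. -/
abbrev Param {n : ℕ} (Z : Finset (Fin n →₀ ℕ)) (h : ℕ) := {u // u ∈ Z} × Fin h

/-- The weighted form whose coefficient at `x ^ u`, `u ∈ Z`, is `∑_a ω_a t_(u, a)`. -/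
noncomputable def member {K : Type} [Field K] [NumberField K] {n h : ℕ}
    (Z : Finset (Fin n →₀ ℕ)) (ω : Fin h → 𝓞 K) (t : Param Z h → ℕ) : MvPolynomial (Fin n) (𝓞 K) :=
  ∑ u : {u // u ∈ Z}, monomial u.1 (∑ a, ω a * (t (u, a) : 𝓞 K))

/-- The place `v` has prime norm `p` with `d ∣ p - 1`, the weighted hypersurface `F = 0` has good
(quasi-smooth) reduction at `v`, and for all groups `Γ` of symmetries of the monomials of `Z`,
all characters `g` of `Γ` and all embeddings of the `d`-th roots of unity into the `p`-adic integers the summand is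
ordinary. -/
def AllOrdinary {K : Type} [Field K] [NumberField K] {n : ℕ} (w : Fin n → ℕ) (d : ℕ) [NeZero d]
    (Z : Finset (Fin n →₀ ℕ)) (F : MvPolynomial (Fin n) (𝓞 K)) (v : HeightOneSpectrum (𝓞 K)) :
    Prop :=
  d ∣ Ideal.absNorm v.asIdeal - 1 ∧ ∃ _ : Fact (Ideal.absNorm v.asIdeal).Prime,
    QuasiSmooth (map (algebraMap (𝓞 K) v.asIdeal.ResidueField) F) ∧
    ∀ Γ : AddSubgroup (Fin n → ZMod d), (∀ b ∈ Γ, ∀ u ∈ Z, ∑ i, b i * ((u i : ℕ) : ZMod d) = 0) →
      ∀ (g : Fin n → ZMod d) (ζ : ℤ_[Ideal.absNorm v.asIdeal]), IsPrimitiveRoot ζ d →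
        Ordinary w (map (algebraMap (𝓞 K) v.asIdeal.ResidueField) F) Γ g ζ

open Classical in
/-- Modulo almost all places of prime norm `p = 1` modulo `d` there are few members for which some
summand is not ordinary. -/
def FewModPlaces {K : Type} [Field K] [NumberField K] {n h : ℕ} (w : Fin n → ℕ) (d : ℕ) [NeZero d]
    (Z : Finset (Fin n →₀ ℕ)) (ω : Fin h → 𝓞 K) : Prop :=
  ∀ ε : ℝ, 0 < ε → {v : HeightOneSpectrum (𝓞 K) | (Ideal.absNorm v.asIdeal).Prime ∧
    d ∣ Ideal.absNorm v.asIdeal - 1 ∧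
    ε * (Ideal.absNorm v.asIdeal : ℝ) ^ Fintype.card (Param Z h) <
      (((Fintype.piFinset fun _ : Param Z h => range (Ideal.absNorm v.asIdeal)).filter
        fun t => ¬ AllOrdinary w d Z (member Z ω t) v).card : ℝ)}.Finite

/-- For almost all members all summands are ordinary at the proportion `1 / [K(μ_d) : K] - η` of all
places, at all scales between `Q₀` and `Q₁`. -/
def AllScales {K : Type} [Field K] [NumberField K] {n h : ℕ} (w : Fin n → ℕ) (d : ℕ) [NeZero d]
    (Z : Finset (Fin n →₀ ℕ)) (ω : Fin h → 𝓞 K) : Prop :=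
  ∀ η : ℝ, 0 < η → ∀ θ : ℝ, 0 < θ → θ < 1 → ∃ A : ℝ, ∀ X Q₀ Q₁ : ℕ, 1 ≤ Q₀ →
    ({t : Param Z h → ℕ | (∀ i, 1 ≤ t i ∧ t i ≤ X) ∧ ∃ Q, Q₀ ≤ Q ∧ Q ≤ Q₁ ∧
      (Nat.card {v : HeightOneSpectrum (𝓞 K) // Ideal.absNorm v.asIdeal ≤ Q ∧
        AllOrdinary w d Z (member Z ω t) v} : ℝ) <
      (1 / (Module.finrank K (CyclotomicField d K) : ℝ) - η) *
        Nat.card {v : HeightOneSpectrum (𝓞 K) // Ideal.absNorm v.asIdeal ≤ Q}}.ncard : ℝ) ≤
    A * ((X : ℝ) ^ Fintype.card (Param Z h) * (Q₀ : ℝ) ^ (θ - 1) +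
      (X : ℝ) ^ (Fintype.card (Param Z h) - 1) * (Q₁ : ℝ) ^ (1 + θ))

lemma map_member {K : Type} [Field K] [NumberField K] {n h : ℕ} (Z : Finset (Fin n →₀ ℕ))
    (ω : Fin h → 𝓞 K) (v : HeightOneSpectrum (𝓞 K)) (hv : (Ideal.absNorm v.asIdeal).Prime)
    (t : Param Z h → ℕ) : map (algebraMap (𝓞 K) v.asIdeal.ResidueField) (member Z ω t) =
      map (algebraMap (𝓞 K) v.asIdeal.ResidueField)
        (member Z ω fun j => t j % Ideal.absNorm v.asIdeal) := by
  have := Pool.Agent.Q267.OD.charP_res v hv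
  rw [member, member, map_sum, map_sum]
  refine sum_congr rfl fun u _ => ?_
  rw [map_monomial, map_monomial]
  congr 1
  rw [map_sum, map_sum]
  refine sum_congr rfl fun a _ => ?_
  rw [map_mul, map_mul, map_natCast, map_natCast]
  congr 1
  exact (CharP.natCast_eq_natCast' _ (Ideal.absNorm v.asIdeal) (Nat.mod_modEq _ _)).symm

open Pool.Agent.H887.BK in
lemma ordinary_of_nice {k : Type} [Field k] {n e p : ℕ} [hp : Fact p.Prime] (hn : 1 ≤ n)
    (hchar : CharP k p) (he : 0 < e) (w : Fin n → ℕ) (hw : ∀ i, w i ∣ e + 1)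
    (Z : Finset (Fin n →₀ ℕ))
    (hZ : ∀ u ∈ Z, ∑ i, w i * u i = e + 1) (hZ' : ∀ i, Finsupp.single i ((e + 1) / w i) ∈ Z)
    (hp1 : p ≡ 1 [MOD (e + 1)])
    (hge : P0 (Fin n) e ≤ p) (f : MvPolynomial (Fin n) k) (φ : ZMod p →+* k)
    (c : Par (supW w hw Z hZ hZ') → ZMod p)
    (hform : map (algebraMap k (AlgebraicClosure k)) f =
      wform w (fun u => algebraMap k (AlgebraicClosure k) (φ (c u))))
    (hN : Nice p e he c) (Γ : AddSubgroup (Fin n → ZMod (e + 1)))
    (hΓ : ∀ b ∈ Γ, ∀ u ∈ Z, ∑ i, b i * ((u i : ℕ) : ZMod (e + 1)) = 0)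
    (g : Fin n → ZMod (e + 1)) (ζ : ℤ_[p]) (hζ : IsPrimitiveRoot ζ (e + 1)) :
    Ordinary w f Γ g ζ := by
  classical
  have hcharb : CharP (AlgebraicClosure k) p :=
    charP_of_injective_algebraMap (algebraMap k (AlgebraicClosure k)).injective p
  set ψ : ZMod p →+* AlgebraicClosure k := (algebraMap k (AlgebraicClosure k)).comp φ with hψ
  have hN' : Nice p e he (fun u => ψ (c u)) := Nice_map he ψ c hN
  have hcp : ∀ u, (fun u => ψ (c u)) u ^ p = (fun u => ψ (c u)) u := by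
    intro u
    change ψ (c u) ^ p = ψ (c u)
    rw [← map_pow, ZMod.pow_card]
  have hform' : map (algebraMap k (AlgebraicClosure k)) f = wform w (fun u => ψ (c u)) := hform
  -- the order of the group is a unit
  have hpe := pow_dvd_of_modEq hp.out he hp1
  set G : ℕ := (univ.filter fun b : Fin n → ZMod (e + 1) => b ∈ Γ).card with hG
  have hGp : ¬ p ∣ G := by
    intro h
    have h4 : G = Nat.card Γ := by
      rw [hG, Nat.card_eq_fintype_card, Fintype.card_subtype]
    have h5 : Nat.card Γ ∣ Nat.card (Fin n → ZMod (e + 1)) :=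
      AddSubgroup.card_addSubgroup_dvd_card Γ
    rw [Nat.card_eq_fintype_card (α := Fin n → ZMod (e + 1)), Fintype.card_fun, ZMod.card] at h5
    rw [h4] at h
    exact hpe (hp.out.dvd_of_dvd_pow (h.trans h5))
  have hGu : IsUnit ((G : ℕ) : ℤ_[p]) := by
    rw [PadicInt.isUnit_iff]
    by_contra h
    have h1 : ‖((G : ℕ) : ℤ_[p])‖ < 1 := lt_of_le_of_ne (PadicInt.norm_le_one _) h
    have h2 : ‖(((G : ℕ) : ℤ) : ℤ_[p])‖ < 1 := by
      rw [Int.cast_natCast]
      exact h1
    rw [PadicInt.norm_int_lt_one_iff_dvd] at h2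
    exact hGp (Int.natCast_dvd_natCast.1 h2)
  obtain ⟨Gu, hGu'⟩ := hGu
  set St : ℕ → ℤ_[p] := fun a => ((Gu⁻¹ : (ℤ_[p])ˣ) : ℤ_[p]) * ((-1) ^ n *
    ∑ b ∈ univ.filter (fun b : Fin n → ZMod (e + 1) => b ∈ Γ), ζ ^ (-∑ i, b i * g i).val *
      ((p ^ a * Nptw p (wform w fun u => ψ (c u))
        (fun i => (((PadicInt.toZMod ζ).val : ℕ) : AlgebraicClosure k) ^ (b i).val) a : ℕ) -
          (p ^ (a * n) : ℕ))) with hSt
  have hG0 : ((G : ℕ) : ℚ_[p]) ≠ 0 := by
    rw [Nat.cast_ne_zero]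
    intro h
    exact hGp (h ▸ dvd_zero p)
  obtain ⟨C, hC0, hC1, hC2, hC3, hC4⟩ := grp_good hn he hp1 hge w hw (supW_w w hw Z hZ hZ')
    (fun u => ψ (c u)) hcp hN' Γ (supW_sym w hw Z hZ hZ' Γ hΓ) g ζ hζ St (by
      intro a _
      rw [← hG, ← hGu', hSt]
      change _ * (_ * _) = _
      rw [← mul_assoc, Units.mul_inv, one_mul])
  have hhodge : ∀ i, Nat.card (WM w e Γ g i) = hodge w Γ g i := fun i => rfl
  simp only [hhodge] at hC2 hC3 hC4
  have hpts : ∀ (b : Fin n → ZMod (e + 1)) (r : ℕ), Nptw p (wform w fun u => ψ (c u))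
      (fun i => (((PadicInt.toZMod ζ).val : ℕ) : AlgebraicClosure k) ^ (b i).val) r =
      pts f ζ b r := by
    intro b r
    rw [← hform']
    unfold Nptw pts
    simp only [eval_map, aeval_def]
  have hp0 : (p : ℚ_[p]) ≠ 0 := by exact_mod_cast hp.out.ne_zero
  refine ⟨C, ⟨hC0, ?_⟩, hC2, ?_, ?_⟩
  · intro m
    rw [hC1 m]
    congr 1
    refine sum_congr rfl fun i _ => ?_
    congr 1
    have h1 : (St (i + 1) : ℚ_[p]) = ((G : ℕ) : ℚ_[p])⁻¹ * ((-1) ^ n *
        ∑ b ∈ univ.filter (fun b : Fin n → ZMod (e + 1) => b ∈ Γ),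
          (ζ : ℚ_[p]) ^ (-∑ i, b i * g i).val *
            ((p : ℚ_[p]) ^ (i + 1) * ((pts f ζ b (i + 1) : ℚ_[p]) -
              (p : ℚ_[p]) ^ ((i + 1) * (n - 1))))) := by
      have h2 : (((Gu⁻¹ : (ℤ_[p])ˣ) : ℤ_[p]) : ℚ_[p]) = ((G : ℕ) : ℚ_[p])⁻¹ := by
        apply eq_inv_of_mul_eq_one_left
        have h3 : ((Gu⁻¹ : (ℤ_[p])ˣ) : ℤ_[p]) * ((G : ℕ) : ℤ_[p]) = 1 := by
          rw [← hGu', Units.inv_mul]
        have h4 := congrArg (fun x : ℤ_[p] => (x : ℚ_[p])) h3
        simpa using h4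
      have h5 : ∀ b : Fin n → ZMod (e + 1), (((ζ ^ (-∑ i, b i * g i).val *
          ((p ^ (i + 1) * Nptw p (wform w fun u => ψ (c u))
          (fun i => (((PadicInt.toZMod ζ).val : ℕ) : AlgebraicClosure k) ^ (b i).val) (i + 1) : ℕ) -
          (p ^ ((i + 1) * n) : ℕ)) : ℤ_[p])) : ℚ_[p]) =
          (ζ : ℚ_[p]) ^ (-∑ i, b i * g i).val *
            ((p : ℚ_[p]) ^ (i + 1) * ((pts f ζ b (i + 1) : ℚ_[p]) -
              (p : ℚ_[p]) ^ ((i + 1) * (n - 1)))) := by
        intro b
        rw [hpts b (i + 1)]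
        have h6 : (p : ℚ_[p]) ^ ((i + 1) * n) =
            (p : ℚ_[p]) ^ (i + 1) * (p : ℚ_[p]) ^ ((i + 1) * (n - 1)) := by
          rw [← pow_add]
          congr 1
          obtain ⟨m, rfl⟩ : ∃ m, n = m + 1 := ⟨n - 1, by omega⟩
          rw [Nat.add_sub_cancel]
          ring
        push_cast
        rw [h6]
        ring
      have h7 : (St (i + 1) : ℚ_[p]) = (((Gu⁻¹ : (ℤ_[p])ˣ) : ℤ_[p]) : ℚ_[p]) * ((-1) ^ n *
          ∑ b ∈ univ.filter (fun b : Fin n → ZMod (e + 1) => b ∈ Γ), (((ζ ^ (-∑ i, b i * g i).val *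
          ((p ^ (i + 1) * Nptw p (wform w fun u => ψ (c u))
          (fun i => (((PadicInt.toZMod ζ).val : ℕ) : AlgebraicClosure k) ^ (b i).val) (i + 1) : ℕ) -
          (p ^ ((i + 1) * n) : ℕ)) : ℤ_[p])) : ℚ_[p])) := by
        rw [hSt]
        simp only [PadicInt.coe_mul, PadicInt.coe_pow, PadicInt.coe_neg, PadicInt.coe_one,
          PadicInt.coe_sum]
      rw [h7, h2]
      congr 1
      congr 1
      exact sum_congr rfl fun b _ => h5 b
    rw [h1, trFrob, mul_div_assoc]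
    congr 1
    rw [mul_sum, sum_div]
    refine sum_congr rfl fun b _ => ?_
    rw [mul_comm ((p : ℚ_[p]) ^ (i + 1) - 1)]
    rw [show (-1 : ℚ_[p]) ^ n * ((ζ : ℚ_[p]) ^ (-∑ i, b i * g i).val *
      ((p : ℚ_[p]) ^ (i + 1) * ((pts f ζ b (i + 1) : ℚ_[p]) -
        (p : ℚ_[p]) ^ ((i + 1) * (n - 1))))) = (p : ℚ_[p]) ^ (i + 1) *
        ((ζ : ℚ_[p]) ^ (-∑ i, b i * g i).val * ((-1 : ℚ_[p]) ^ n *
          ((pts f ζ b (i + 1) : ℚ_[p]) - (p : ℚ_[p]) ^ ((i + 1) * (n - 1))))) by ring,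
      mul_div_mul_left _ _ (pow_ne_zero _ hp0), mul_div_assoc]
  · intro m j hm
    refine le_trans (le_of_eq ?_) (hC3 m j hm)
    push_cast
    congr 1
    refine sum_congr rfl fun i hi => ?_
    rw [Nat.cast_sub (mem_range.1 hi).le]
    ring
  · intro j
    refine ⟨(hC4 j).1, ?_⟩
    rw [(hC4 j).2]
    push_cast
    exact sum_congr rfl fun i _ => mul_comm _ _

open Pool.Agent.H887.BK in
lemma allOrdinary_of_nice {K : Type} [Field K] [NumberField K] {n h e : ℕ} (hn : 1 ≤ n)
    (he : 0 < e) (w : Fin n → ℕ) (hw : ∀ i, w i ∣ e + 1) (Z : Finset (Fin n →₀ ℕ))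
    (hZ : ∀ u ∈ Z, ∑ i, w i * u i = e + 1) (hZ' : ∀ i, Finsupp.single i ((e + 1) / w i) ∈ Z)
    (ω : Fin h → 𝓞 K) (v : HeightOneSpectrum (𝓞 K)) (p : ℕ)
    [hp : Fact p.Prime] (hv : Ideal.absNorm v.asIdeal = p) (hp1 : p ≡ 1 [MOD (e + 1)])
    (hge : P0 (Fin n) e ≤ p) (φ : ZMod p →+* v.asIdeal.ResidueField) (t : Param Z h → ℕ)
    (c : Par (supW w hw Z hZ hZ') → ZMod p)
    (hc : ∀ u, φ (c (eqvW w hw Z hZ hZ' u)) =
      algebraMap (𝓞 K) v.asIdeal.ResidueField (∑ a, ω a * (t (u, a) : 𝓞 K)))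
    (hN : Nice p e he c) : AllOrdinary w (e + 1) Z (member Z ω t) v := by
  classical
  subst hv
  have hne : Nonempty (Fin n) := ⟨⟨0, hn⟩⟩
  have hchar : CharP v.asIdeal.ResidueField (Ideal.absNorm v.asIdeal) :=
    Pool.Agent.Q267.OD.charP_res v hp.out
  set k := v.asIdeal.ResidueField with hk
  have hform : map (algebraMap k (AlgebraicClosure k)) (map (algebraMap (𝓞 K) k)
      (member Z ω t)) = wform w (fun u => algebraMap k (AlgebraicClosure k) (φ (c u))) := by
    rw [wform_eqv, member, map_sum, map_sum]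
    refine sum_congr rfl fun u _ => ?_
    rw [map_monomial, map_monomial, ← hc u]
  have hN' : Nice (Ideal.absNorm v.asIdeal) e he
      (fun u => algebraMap k (AlgebraicClosure k) (φ (c u))) :=
    Nice_map he ((algebraMap k (AlgebraicClosure k)).comp φ) c hN
  have h1 := wsmooth he w hw (supW_w w hw Z hZ hZ') _ hN'
  rw [← hform] at h1
  refine ⟨(Nat.modEq_iff_dvd' hp.out.one_le).1 hp1.symm, hp, ?_, fun Γ hΓ g ζ hζ => ?_⟩
  · intro ξ hξ
    apply h1 ξ
    intro i
    rw [pderiv_map, eval_map]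
    exact hξ i
  · exact ordinary_of_nice hn hchar he w hw Z hZ hZ' hp1 hge _ φ c hform hN Γ hΓ g ζ hζ

open Pool.Agent.H887.BK in
/-- **Ordinary primes for the isotypic summands of the motives of almost all hypersurfaces.** See
above. -/
theorem result (K : Type) [Field K] [NumberField K] (n d h : ℕ) [NeZero d] (w : Fin n → ℕ)
    (Z : Finset (Fin n →₀ ℕ)) (ω : Fin h → 𝓞 K) (hn : 1 ≤ n) (hd : 2 ≤ d)
    (hw : ∀ i, w i ∣ d) (hZ : ∀ u ∈ Z, ∑ i, w i * u i = d)
    (hZ' : ∀ i, Finsupp.single i (d / w i) ∈ Z) (hω : ∃ a, ω a ≠ 0) :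
    FewModPlaces w d Z ω ∧ AllScales w d Z ω := by
  classical
  obtain ⟨e, rfl⟩ : ∃ e, d = e + 1 := ⟨d - 1, by omega⟩
  have he : 0 < e := by omega
  obtain ⟨a₀, ha₀⟩ := hω
  have hfew := fun ε hε => few_abs (K := K) he (supW w hw Z hZ hZ') ω a₀ ha₀
    (eqvW w hw Z hZ hZ') (fun v t => AllOrdinary w (e + 1) Z (member Z ω t) v)
    (fun v p _ hv hp1 hge φ t c hc hN =>
      allOrdinary_of_nice hn he w hw Z hZ hZ' ω v p hv hp1 hge φ t c hc hN) ε hε
  refine ⟨fun ε hε => (hfew ε hε).subset fun v hv => ⟨hv.1, hv.2.1, fun h => ?_⟩,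
    fun η hη θ hθ0 hθ1 => ?_⟩
  · exact lt_irrefl _ (lt_of_lt_of_le hv.2.2 h)
  · have hnon : Nonempty (Param Z h) := ⟨(⟨_, hZ' ⟨0, hn⟩⟩, a₀)⟩
    refine Pool.Agent.H887.BK.allscalesP (e + 1)
      (fun v t => AllOrdinary w (e + 1) Z (member Z ω t) v) (fun v hv t => ?_) ?_ η hη θ hθ0 hθ1
    · unfold AllOrdinary
      rw [map_member Z ω v hv t]
    · intro ε hε
      refine (hfew ε hε).subset fun v hv => ⟨hv.1, hv.2.1, fun h => hv.2.2 ?_⟩
      refine le_trans (le_of_eq ?_) h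
      refine congrArg Nat.cast (congrArg Finset.card (Finset.ext fun x => ?_))
      simp only [mem_filter, Fintype.mem_piFinset]

end Pool.Agent.Results.MP_0dad22_ag.IsotypicSummands
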