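import Pool.Agent.H367.OS.GPlain

/-!
# Ordinary primes for summands of motives and single pieces of one sequence of cubics

A relation `r` of size `m` is one of the equations `x_i x_j = x_l`, `x_i + x_j = x_l`, `x_i = 1` with
`i, j, l < m`; the relations are numbered, the number of `r` is `ν(r)` (`relNum`). Let `G_m` be the
following polynomial with integral coefficients (`univG ℤ m`). There are variables `x_i` and `z_ij` for
`i, j < m`, a variable `c_r` for every relation `r`, and variables `y_{r,l}` for all relations `r` and
`l < (m + 1) 2 ^ ν(r)`. The equations (`eqnG`) are

  `z_ij - x_i x_j`,  `c_r ^ 2 - c_r`,  `c_r ρ_r`,  `(1 - c_r) y_{r,l}`,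

where `ρ_r` is the linear polynomial `z_ij - x_l`, `x_i + x_j - x_l` or `x_i - 1` of the relation.
`G_m` is the sum of the equations multiplied by further variables `t_e`, one for each equation. It has
degree three. Let `C_m` be the affine cubic hypersurface `G_m = 1` (`cubG R m` over the ring `R`); it is
smooth over the integers.

Let `M` be the category of motives over `ℚ` (motivated cycles), a semisimple abelian category with
Tate twists `N ↦ N(a)`. For a separated scheme `X` of finite type over `ℚ` let `D.G w j X = Gr^W_w
H^j_c(X)` be the part of weight `w` of the cohomology with compact supports, a motive over `ℚ`; for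
smooth projective `Y` it is `h^j(Y)` if `j = w`, and zero otherwise.

For a motive `N` over `ℚ` let `ord N` be the set of the prime numbers `p` (outside of the finite set
of the excluded primes) such that the Newton polygon of Frobenius at `p` on the `ℓ`-adic realization
of `N` is the Hodge-Tate polygon, for all `ℓ ≠ p` and all embeddings. If `N` is a direct factor of
`N'`, it has this property at all primes in `ord N'` except finitely many (the Newton polygons lie on
or above the Hodge-Tate polygons for almost all `p`), and Tate twists do not matter; see `IsPlaces`.

For a number field `F` let `Obj F` be the motives `R = eM` over `F` as in question Q1 (for all `X`,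
`U`, `π`, `i`, `k` which satisfy the standing hypothesis (A), and all idempotents `e`), and let
`ordinary F R` be the set of the primes of `F` such that the Newton and Hodge-Tate polygons are equal
for all `ℓ` and `τ`. `Q1 Obj ordinary` says that it is infinite for all `F` and `R`. The statements
are related as follows (hypothesis `Describes`).

* For `F = ℚ` and smooth projective `Y` the motives `h^i(Y)` are among the motives `R` (`X = U = Y`, `π` the
  identity).
* Let `R = eM` be a motive over `F` as in the question. It is a pure motive, and by restriction of scalars it
  is a direct factor of a motive over `F` which comes from a pure motive over `ℚ`. So there are a smooth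
  projective `Y` over `ℚ` and `i` such that `R` is a direct factor of a Tate twist of `h^i(Y)`, restricted to
  `F`. If `p` is in `ord (h^i(Y))`, the primes above `p` are ordinary for `R`, except finitely many.

**Theorem.** Let `E_m` be the number of the equations, and for `N ∈ ℕ` let `e = (m + 1) N + E_m - 1`
(`esh m N`).

(1) Question Q1 has a positive answer for all `F` and all motives `R` if and only if for infinitely many
`m` the single motives `Gr^W_{j-1} H^j_c(C_m)` have infinitely many ordinary primes, for all `j`.

(2) In each degree: the motives `h^w(Y)` have infinitely many ordinary primes for all smooth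
projective `Y` over `ℚ` if and only if for infinitely many `m` this is true for the single motives
`Gr^W_{w+2e} H^{w+2e+1}_c(C_m)`, for all `N`.

(3) The hypersurfaces `C_m` decide the statement for the pieces of the cohomology (`DecidesPlain`). For
every affine scheme `Spec B` of finite type over `ℚ` and all large `m` there is an `N` such that for
`0 ≤ w ≤ 2 m + 1` and all `j` the statement for `Gr^W_w H^j_c(Spec B)` is equivalent to the one for
`Gr^W_{w+2e} H^{j+2e+1}_c(C_m)`. For every smooth projective `Y` over `ℚ`, every `d` and all large `m`
there is an `e'` such that for all `i ≤ d` the statement for `h^i(Y)` is equivalent to the one for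
`Gr^W_{i+2e'} H^{i+2e'+1}_c(C_m)`. The statements for the pieces of one `C_m` imply those for all pieces
of a given separated scheme `X` of finite type.

(4) `G_m` has integral coefficients and degree at most three, and `C_m` is smooth over all rings.

The hypotheses on the motives are standard (`IsMot`): exact sequences, affine bundles, disjoint unions,
the cohomology of affine spaces, the weights of `H^j_c(X)` are between `0` and `2 dim X`, monomorphisms
split, `Gr^W_w H^j_c(X)` is a direct factor of `h^w(Y)` for some smooth projective `Y` (it is a
subquotient, by the weight spectral sequence), and every smooth projective scheme has an affine bundle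
whose total space is affine (Jouanolou).

Idea of the proof. The projection of `C_m` to the affine space with the coordinates `x, z, c, y` is an
affine bundle over the complement of the zero set `W_m` of the equations. The scheme `W_m` is the
disjoint union, over all sets `s` of relations (`c_r = 1` for `r ∈ s` and `c_r = 0` for the others), of
the products `X_s × 𝔸 ^ ((m + 1) N(s))`, where `X_s` is the affine scheme defined by the relations in
`s` and `N(s) = ∑_{r ∈ s} 2 ^ ν(r)`. The numbers `N(s)` are different, and the weights of the
cohomology of `X_s` are between `0` and `2 m`. So the part of weight `w + 2 (m + 1) N(s)`,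
`0 ≤ w ≤ 2 m + 1`, of the cohomology of `W_m` is the twist of the part of weight `w` of the cohomology of
`X_s`, and it is different from the weight of the cohomology of the affine space. Every affine scheme of
finite type over a prime field is an `X_s`, for all large `m`. The pieces of the cohomology of an
arbitrary scheme are direct factors of those of a disjoint union of affine schemes.

The universal system of relations is the one of helper854 (`Pool.Agent.H854.SQ`).
-/

set_option autoImplicit false

open CategoryTheory CategoryTheory.Limits AlgebraicGeometry Pool.Agent.Y116.UV Pool.Agent.Z125.UN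
  Pool.Agent.Q193.LT Pool.Agent.H854.SQ Pool.Agent.H367.OS
  NumberField IsDedekindDomain

universe v u u'



namespace Pool.Agent.Results.MP_0dad22_ag.PiecesOfOneSequence

/-- Question Q1: all motives `R` have infinitely many ordinary primes. -/
def Q1 (Obj : ∀ (F : Type) [Field F] [NumberField F], Type u')
    (ordinary : ∀ (F : Type) [Field F] [NumberField F], Obj F → Set (HeightOneSpectrum (𝓞 F))) :
    Prop :=
  ∀ (F : Type) [Field F] [NumberField F] (R : Obj F), (ordinary F R).Infinite

/-- The relation of question Q1 with motives over `ℚ`: it implies that the sets of the ordinary primes of
all `h^i(Y)` are infinite, and for every `R` the statement follows from this for one `h^i(Y)`. -/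
structure Describes {M : Type u} [Category.{v} M] (D : Pieces ℚ M) (ord : M → Set ℕ)
    (Obj : ∀ (F : Type) [Field F] [NumberField F], Type u')
    (ordinary : ∀ (F : Type) [Field F] [NumberField F], Obj F → Set (HeightOneSpectrum (𝓞 F))) :
    Prop where
  rational : Q1 Obj ordinary → ∀ Y : Sch ℚ, SmoothProj Y → ∀ i : ℤ, (ord (D.G i i Y)).Infinite
  reduce : ∀ (F : Type) [Field F] [NumberField F] (R : Obj F), ∃ (Y : Sch ℚ) (i : ℤ),
    SmoothProj Y ∧ ((ord (D.G i i Y)).Infinite → (ordinary F R).Infinite)

/-- **Ordinary primes for summands of motives and single pieces of one sequence of cubic hypersurfaces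
over the integers.** See the explanations above. -/
theorem result {M : Type u} [Category.{v} M] [Abelian M] {D : Pieces ℚ M} (h : IsMot D)
    {ord : M → Set ℕ} (ho : IsPlaces D ord)
    {Obj : ∀ (F : Type) [Field F] [NumberField F], Type u'}
    {ordinary : ∀ (F : Type) [Field F] [NumberField F], Obj F → Set (HeightOneSpectrum (𝓞 F))}
    (describes : Describes D ord Obj ordinary) :
    (Q1 Obj ordinary ↔
      ∃ᶠ m in Filter.atTop, ∀ j : ℤ, (ord (D.G (j - 1) j (cubG ℚ m))).Infinite) ∧
    (∀ w : ℕ, (∀ Y : Sch ℚ, SmoothProj Y → (ord (D.G w w Y)).Infinite) ↔
      ∃ᶠ m in Filter.atTop, ∀ N : ℕ,
        (ord (D.G (w + 2 * esh m N) (w + 2 * esh m N + 1) (cubG ℚ m))).Infinite) ∧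
    DecidesPlain D (Large Set.Infinite ord) ∧
    ∀ m : ℕ, (univG ℤ m).totalDegree ≤ 3 ∧
      ∀ (R : Type) [CommRing R], MvPolynomial.map (Int.castRingHom R) (univG ℤ m) = univG R m ∧
        Smooth (cubG R m).hom := by
  have hd := decides_large isPrimeField_rat h ho large_infinite
  have h1 := hd.all.out 1 0
  refine ⟨Iff.trans ⟨?_, ?_⟩ h1, fun w => (hd.weight w).out 1 0, hd, cubG_facts⟩
  · exact fun g Y hY i => describes.rational g Y hY i
  · intro g F _ _ R
    obtain ⟨Y, i, hY, h2⟩ := describes.reduce F R
    exact h2 (g Y hY i)

end Pool.Agent.Results.MP_0dad22_ag.PiecesOfOneSequence
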